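import Pool.Agent.H86.RG.Targets2

/-! Row E6D1 of reg_modules (MP_2697e3_an, part E): Hölder continuous gradient of harmonic maps with
Morrey decay. -/

set_option autoImplicit false

namespace Pool.Agent.H25.RG6

open MeasureTheory Metric Set Filter Topology Pool.Agent.H87.SN Pool.Agent.H86.RG
open scoped ContDiff RealInnerProductSpace ENNReal

noncomputable section

variable {n : ℕ}

theorem Tst_dd {U : Set (E n)} {ψ : E n → ℝ} (h : Tst U ψ) (i : Fin n) : Tst U (dd i ψ) := by
  obtain ⟨h1, h2, h3⟩ := h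
  have hs : tsupport (dd i ψ) ⊆ tsupport ψ := by
    refine closure_minimal ?_ isClosed_closure
    intro x hx
    by_contra hcon
    apply hx
    have : fderiv ℝ ψ x = 0 := by
      have h4 : ψ =ᶠ[𝓝 x] fun _ => 0 := by
        have := notMem_tsupport_iff_eventuallyEq.1 hcon
        exact this
      rw [h4.fderiv_eq]
      simp
    simp [dd, this]
  refine ⟨?_, h2.of_isClosed_subset isClosed_closure hs, hs.trans h3⟩
  exact (h1.fderiv_right (m := ∞) le_rfl).clm_apply contDiff_const

theorem int_mul {U : Set (E n)} {g ψ : E n → ℝ} (hg : IntegrableOn g U)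
    (hψ : Tst U ψ) : Integrable (fun x => g x * ψ x) := by
  obtain ⟨h1, h2, h3⟩ := hψ
  obtain ⟨C, hC⟩ := h2.exists_bound_of_continuous h1.continuous
  have h4 : IntegrableOn (fun x => g x * ψ x) U :=
    Integrable.mul_bdd (c := C) hg h1.continuous.aestronglyMeasurable (Eventually.of_forall hC)
  refine (integrableOn_iff_integrable_of_support_subset ?_).1 h4
  intro x hx
  apply h3
  apply subset_tsupport
  intro h0
  apply hx
  simp [h0]

theorem norm_le_sum {m : ℕ} (w : E m) : ‖w‖ ≤ ∑ a : Fin m, |w a| := by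
  have h : w = ∑ a : Fin m, w a • (EuclideanSpace.single a (1 : ℝ) : E m) := by
    ext b
    simp [Finset.sum_apply, Pi.single_apply]
  calc ‖w‖ = ‖∑ a : Fin m, w a • (EuclideanSpace.single a (1 : ℝ) : E m)‖ := by rw [← h]
    _ ≤ ∑ a : Fin m, ‖w a • (EuclideanSpace.single a (1 : ℝ) : E m)‖ := norm_sum_le _ _
    _ = ∑ a : Fin m, |w a| := by
      refine Finset.sum_congr rfl fun a _ => ?_
      rw [norm_smul, Real.norm_eq_abs, PiLp.norm_single, norm_one, mul_one]

theorem comp_le {m : ℕ} (w : E m) (a : Fin m) : |w a| ≤ ‖w‖ := by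
  have := PiLp.norm_apply_le w a
  simpa [Real.norm_eq_abs] using this

theorem fderiv_comp {m : ℕ} {u : E n → E m} {x : E n} (h : DifferentiableAt ℝ u x) (a : Fin m)
    (v : E n) : fderiv ℝ (fun y => u y a) x v = (fderiv ℝ u x v) a := by
  have h1 : HasFDerivAt (fun y => u y a)
      ((EuclideanSpace.proj a : E m →L[ℝ] ℝ).comp (fderiv ℝ u x)) x :=
    (EuclideanSpace.proj a : E m →L[ℝ] ℝ).hasFDerivAt.comp x h.hasFDerivAt
  rw [h1.fderiv]
  rfl

theorem Tst_mono {U V : Set (E n)} (h : U ⊆ V) {ψ : E n → ℝ} (hψ : Tst U ψ) : Tst V ψ :=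
  ⟨hψ.1, hψ.2.1, hψ.2.2.trans h⟩

theorem int_congr {U : Set (E n)} {g g' ψ : E n → ℝ} (hU : MeasurableSet U)
    (hg : ∀ᵐ x ∂(volume.restrict U), g' x = g x) (hψ : Tst U ψ) :
    ∫ x, g' x * ψ x = ∫ x, g x * ψ x := by
  refine integral_congr_ae ?_
  rw [ae_restrict_iff' hU] at hg
  filter_upwards [hg] with x hx
  by_cases h : x ∈ U
  · rw [hx h]
  · have : ψ x = 0 := by
      by_contra hne
      exact h (hψ.2.2 (subset_tsupport _ hne))
    simp [this]

/-- restriction and change on a null set -/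
theorem Sol_restrict {m : ℕ} {U V : Set (E n)} (hV : MeasurableSet V) (h : V ⊆ U)
    {u u' : E n → E m} {D : Fin m → E n → E n} {f : E n → E m}
    (hs : Sol U u D f) (hu : ∀ᵐ x ∂(volume.restrict V), u' x = u x) : Sol V u' D f where
  iu a := by
    refine ((hs.iu a).mono_set h).congr ?_
    filter_upwards [hu] with x hx
    rw [hx]
  iD a := (hs.iD a).mono_measure (Measure.restrict_mono h le_rfl)
  iF a := (hs.iF a).mono_set h
  gr a := by
    intro ψ hψ i
    rw [← hs.gr a ψ (Tst_mono h hψ) i]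
    refine int_congr hV ?_ (Tst_dd hψ i)
    filter_upwards [hu] with x hx
    rw [hx]
  eq a := by
    intro ψ hψ
    exact hs.eq a ψ (Tst_mono h hψ)

theorem WLap_of {m : ℕ} {U : Set (E n)} {u : E n → E m} {D : Fin m → E n → E n} {f : E n → E m}
    (hD : ∀ a i, IntegrableOn (fun x => D a x i) U)
    (hs : Sol U u D f) (a : Fin m) : WLap U (fun x => u x a) (fun x => f x a) := by
  intro ψ hψ
  have h1 : (∫ x, u x a * lap ψ x) = ∑ i : Fin n, ∫ x, u x a * dd i (dd i ψ) x := by
    rw [← integral_finsetSum]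
    · refine integral_congr_ae (Eventually.of_forall fun x => ?_)
      simp only [lap, Finset.mul_sum]
    · intro i _
      exact int_mul (hs.iu a) (Tst_dd (Tst_dd hψ i) i)
  have h2 : ∀ i : Fin n, (∫ x, u x a * dd i (dd i ψ) x) = -∫ x, D a x i * dd i ψ x := fun i =>
    hs.gr a (dd i ψ) (Tst_dd hψ i) i
  have h3 : (∫ x, ∑ i : Fin n, dd i ψ x * D a x i) = ∑ i : Fin n, ∫ x, D a x i * dd i ψ x := by
    rw [← integral_finsetSum]
    · refine integral_congr_ae (Eventually.of_forall fun x => ?_)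
      simp only [mul_comm]
    · intro i _
      exact int_mul (hD a i) (Tst_dd hψ i)
  rw [h1, Finset.sum_congr rfl fun i _ => h2 i, Finset.sum_neg_distrib, ← h3, hs.eq a ψ hψ]
  congr 1
  refine integral_congr_ae (Eventually.of_forall fun x => ?_)
  simp only [mul_comm]

/-- the classical and the weak partial derivatives agree -/
theorem weak_eq (hIBP : Pool.Agent.H70.RG.T_IBP) {U : Set (E n)} (hU : IsOpen U) {v : E n → ℝ}
    {D : E n → E n} (hD : ∀ i, IntegrableOn (fun x => D x i) U) (hw : WGr U v D)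
    (hd : ∀ x ∈ U, DifferentiableAt ℝ v x)
    (hc : ∀ i, ContinuousOn (fun x => fderiv ℝ v x (bv i)) U) :
    ∀ᵐ x ∂(volume.restrict U), ∀ i, D x i = fderiv ℝ v x (bv i) := by
  rw [ae_all_iff]
  intro i
  rw [ae_restrict_iff' hU.measurableSet]
  have hloc : LocallyIntegrableOn (fun x => D x i - fderiv ℝ v x (bv i)) U :=
    (hD i).locallyIntegrableOn.sub ((hc i).locallyIntegrableOn hU.measurableSet)
  have h := hU.ae_eq_zero_of_integral_contDiff_smul_eq_zero hloc ?_
  · filter_upwards [h] with x hx hxU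
    have := hx hxU
    linarith
  · intro ψ h1 h2 h3
    have hψ : Tst U ψ := ⟨h1, h2, h3⟩
    obtain ⟨-, -, -, h4⟩ := hIBP n ℝ U v (bv i) hU hd (hc i) ψ hψ
    have h5 := hw ψ hψ i
    have i1 : Integrable (fun x => D x i * ψ x) := int_mul (hD i) hψ
    have hK : IntegrableOn (fun x => fderiv ℝ v x (bv i)) (tsupport ψ) :=
      ((hc i).mono h3).integrableOn_compact h2
    have i2 : Integrable (fun x => fderiv ℝ v x (bv i) * ψ x) := by
      obtain ⟨C, hC⟩ := h2.exists_bound_of_continuous h1.continuous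
      have h6 : IntegrableOn (fun x => fderiv ℝ v x (bv i) * ψ x) (tsupport ψ) :=
        Integrable.mul_bdd (c := C) hK h1.continuous.aestronglyMeasurable (Eventually.of_forall hC)
      refine (integrableOn_iff_integrable_of_support_subset ?_).1 h6
      intro x hx
      apply subset_tsupport
      intro h0
      apply hx
      simp [h0]
    have h7 : (∫ x, ψ x • (D x i - fderiv ℝ v x (bv i))) =
        (∫ x, D x i * ψ x) - ∫ x, fderiv ℝ v x (bv i) * ψ x := by
      rw [← integral_sub i1 i2]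
      refine integral_congr_ae (Eventually.of_forall fun x => ?_)
      simp only [smul_eq_mul]
      ring
    rw [h7]
    have h8 : (∫ x, v x * dd i ψ x) = ∫ x, fderiv ℝ ψ x (bv i) • v x := by
      refine integral_congr_ae (Eventually.of_forall fun x => ?_)
      simp only [smul_eq_mul, dd]
      ring
    have h9 : (∫ x, ψ x • fderiv ℝ v x (bv i)) = ∫ x, fderiv ℝ v x (bv i) * ψ x := by
      refine integral_congr_ae (Eventually.of_forall fun x => ?_)
      simp only [smul_eq_mul]
      ring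
    rw [h8, h4, h9] at h5
    linarith

theorem integ_comp {m : ℕ} {U : Set (E n)} (hU : volume U ≠ ⊤) {D : Fin m → E n → E n}
    (hD : ∀ a, MemLp (D a) 2 (volume.restrict U)) (a : Fin m) : IntegrableOn (D a) U := by
  have : IsFiniteMeasure (volume.restrict U) := ⟨by
    rw [Measure.restrict_apply_univ]; exact hU.lt_top⟩
  exact (hD a).integrable one_le_two

theorem integ_coord {U : Set (E n)} {D : E n → E n} (hD : IntegrableOn D U) (i : Fin n) :
    IntegrableOn (fun x => D x i) U :=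
  (EuclideanSpace.proj i : E n →L[ℝ] ℝ).integrable_comp hD

theorem hoelder_cont {v : E n → ℝ} {U : Set (E n)} {C θ : ℝ} (hθ : 0 < θ)
    (h : ∀ x ∈ U, ∀ y ∈ U, |v x - v y| ≤ C * ‖x - y‖ ^ θ) : ContinuousOn v U := by
  intro x hx
  rw [Metric.continuousWithinAt_iff']
  intro ε hε
  have h1 : Tendsto (fun y : E n => C * ‖y - x‖ ^ θ) (𝓝 x) (𝓝 0) := by
    have h2 : Tendsto (fun y : E n => ‖y - x‖) (𝓝 x) (𝓝 0) := by
      have : Continuous (fun y : E n => ‖y - x‖) := by fun_prop
      have h3 := this.tendsto x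
      simpa using h3
    have h4 := (h2.rpow_const (p := θ) (Or.inr hθ.le)).const_mul C
    rw [Real.zero_rpow hθ.ne', mul_zero] at h4
    exact h4
  have h5 : ∀ᶠ y in 𝓝[U] x, C * ‖y - x‖ ^ θ < ε :=
    (h1.eventually (gt_mem_nhds hε)).filter_mono nhdsWithin_le_nhds
  filter_upwards [h5, self_mem_nhdsWithin] with y hy hyU
  rw [Real.dist_eq]
  exact (h y hyU x hx).trans_lt hy

theorem comb {m : ℕ} (w : Fin m → ℝ) :
    (WithLp.toLp 2 w : E m) = ∑ a : Fin m,
      (ContinuousLinearMap.toSpanSingleton ℝ (EuclideanSpace.single a (1 : ℝ) : E m)) (w a) := by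
  ext b
  simp [Finset.sum_apply, Pi.single_apply]


/-- E6D1 -/
theorem pf_D1 (hMOR : T_MOR) (hCAC : T_CAC) (hP1 : T_P1) (hHAL : Pool.Agent.H70.RG.T_HAL)
    (hHLO : Pool.Agent.H70.RG.T_HLO) (hHMO : Pool.Agent.H70.RG.T_HMO)
    (hIBP : Pool.Agent.H70.RG.T_IBP) : T_D1 := by
  intro n m u D f x₀ R K C hn hR hs hf hdec
  have hb : ∀ (x : E n) (r : ℝ), volume (ball x r) ≠ ⊤ := fun x r => measure_ball_lt_top.ne
  -- sums of norms
  have hDi : ∀ a, IntegrableOn (D a) (ball x₀ (2 * R)) := integ_comp (hb _ _) hs.iD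
  have hsub : ∀ x ∈ ball x₀ R, ∀ r : ℝ, r ≤ R → ball x r ⊆ ball x₀ (2 * R) := by
    intro x hx r hr y hy
    rw [mem_ball] at hx hy ⊢
    have := dist_triangle y x x₀
    linarith
  -- Step 1
  have h1 : ∀ a : Fin m, ∃ v' : E n → ℝ,
      (∀ᵐ x ∂(volume.restrict (ball x₀ R)), v' x = u x a) ∧
      ∃ C' : ℝ, ∀ x ∈ ball x₀ R, ∀ y ∈ ball x₀ R,
        |v' x - v' y| ≤ C' * ‖x - y‖ ^ (5 / 8 : ℝ) := by
    intro a
    refine hMOR n (fun x => u x a) (D a) x₀ R C (3 / 4) (5 / 8) hn hR (by norm_num)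
      (by norm_num) (by norm_num) (hs.iu a) (hDi a) (hs.gr a) ?_
    intro x hx r hr hrR
    refine le_trans ?_ (hdec x hx r hr hrR)
    have hss := hsub x hx r hrR
    refine integral_mono ((hDi a).mono_set hss).norm
      (integrable_finsetSum _ fun b _ => ((hDi b).mono_set hss).norm) fun y => ?_
    exact Finset.single_le_sum (f := fun b => ‖D b y‖) (fun b _ => norm_nonneg _)
      (Finset.mem_univ a)
  choose v' hv' C' hC' using h1
  set u' : E n → E m := fun x => WithLp.toLp 2 (fun a => v' a x) with hu'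
  have hu'a : ∀ x a, u' x a = v' a x := fun x a => rfl
  have hae : ∀ᵐ x ∂(volume.restrict (ball x₀ R)), u' x = u x := by
    have : ∀ᵐ x ∂(volume.restrict (ball x₀ R)), ∀ a, v' a x = u x a := ae_all_iff.2 hv'
    filter_upwards [this] with x hx
    ext a
    rw [hu'a, hx a]
  have hHol : ∀ x ∈ ball x₀ R, ∀ y ∈ ball x₀ R,
      ‖u' x - u' y‖ ≤ (∑ a, C' a) * ‖x - y‖ ^ (5 / 8 : ℝ) := by
    intro x hx y hy
    refine (norm_le_sum _).trans ?_
    rw [Finset.sum_mul]
    exact Finset.sum_le_sum fun a _ => hC' a x hx y hy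
  -- Step 2
  have hR2 : (2 : ℝ) * (R / 2) = R := by ring
  have hs2 : Sol (ball x₀ (2 * (R / 2))) u' D f := by
    rw [hR2]
    exact Sol_restrict measurableSet_ball (ball_subset_ball (by linarith)) hs hae
  obtain ⟨C₂, r₀, hr₀, hr₀R, hcac⟩ := hCAC n m u' D f x₀ (R / 2) K (∑ a, C' a) (5 / 8) hn
    (by linarith) (by norm_num) (by norm_num) hs2
    (ae_mono (Measure.restrict_mono (ball_subset_ball (by linarith)) le_rfl) hf)
    (by rw [hR2]; exact hHol)
  -- Step 3
  set ρ : ℝ := r₀ / 2 with hρ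
  have hρ0 : 0 < ρ := by linarith
  have hρR : ρ ≤ R := by linarith
  have hs3 : Sol (ball x₀ (2 * ρ)) u' D f := by
    refine Sol_restrict measurableSet_ball (ball_subset_ball (by linarith)) hs ?_
    exact ae_mono (Measure.restrict_mono (ball_subset_ball (by linarith)) le_rfl) hae
  have hDi3 : ∀ a i, IntegrableOn (fun x => D a x i) (ball x₀ (2 * ρ)) := fun a i =>
    integ_coord (integ_comp (hb _ _) hs3.iD a) i
  have hD2 : ∀ a, IntegrableOn (fun x => ‖D a x‖ ^ 2) (ball x₀ (2 * R)) := fun a =>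
    (memLp_two_iff_integrable_sq_norm (hs.iD a).1).1 (hs.iD a)
  have hHH : ∀ a : Fin m, Pool.Agent.H70.RG.HH 1 (v' a) (ball x₀ ρ) := by
    intro a
    refine hP1 n (v' a) (fun x => f x a) x₀ ρ (|K| * C₂) (5 / 4) hn hρ0 (by norm_num)
      (by norm_num) ?_ (hs3.iu a) (hs3.iF a) (WLap_of hDi3 hs3 a) ?_
    · exact (hoelder_cont (by norm_num) (hC' a)).mono (ball_subset_ball (by linarith))
    · intro x hx r hr hrρ
      have hx1 : x ∈ ball x₀ (R / 2) := ball_subset_ball (by linarith) hx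
      have hx2 : x ∈ ball x₀ R := ball_subset_ball (by linarith) hx
      have hss : ball x r ⊆ ball x₀ (2 * R) := hsub x hx2 r (by linarith)
      have hc := hcac x hx1 r hr (by linarith)
      have e1 : (n : ℝ) - 2 + 2 * (5 / 8) = (n : ℝ) - 2 + 5 / 4 := by ring
      rw [e1] at hc
      have hint : IntegrableOn (fun y => ∑ b, ‖D b y‖ ^ 2) (ball x r) :=
        integrable_finsetSum _ fun b _ => (hD2 b).mono_set hss
      calc ∫ y in ball x r, |f y a| ≤ ∫ y in ball x r, |K| * ∑ b, ‖D b y‖ ^ 2 := by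
            refine integral_mono_ae ((hs.iF a).mono_set hss).abs (hint.const_mul _) ?_
            have hf' : ∀ᵐ y ∂(volume.restrict (ball x r)), ‖f y‖ ≤ K * ∑ b, ‖D b y‖ ^ 2 :=
              ae_mono (Measure.restrict_mono hss le_rfl) hf
            filter_upwards [hf'] with y hy
            refine (comp_le _ _).trans (hy.trans ?_)
            exact mul_le_mul_of_nonneg_right (le_abs_self K)
              (Finset.sum_nonneg fun b _ => by positivity)
        _ = |K| * ∫ y in ball x r, ∑ b, ‖D b y‖ ^ 2 := integral_const_mul _ _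
        _ ≤ |K| * (C₂ * r ^ ((n : ℝ) - 2 + 5 / 4)) :=
            mul_le_mul_of_nonneg_left hc (abs_nonneg K)
        _ = |K| * C₂ * r ^ ((n : ℝ) - 2 + 5 / 4) := by ring
  -- Step 4
  have hHu : Pool.Agent.H70.RG.HH 1 u' (ball x₀ ρ) := by
    have a1 : Pool.Agent.H70.RG.HH 1 (fun x => ∑ a : Fin m,
        (ContinuousLinearMap.toSpanSingleton ℝ (EuclideanSpace.single a (1 : ℝ) : E m)) (v' a x))
        (ball x₀ ρ) := by
      refine (hHAL n (E m) (E m) 1 (ball x₀ ρ) isOpen_ball).2.1 m _ fun a => ?_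
      exact (hHAL n ℝ (E m) 1 (ball x₀ ρ) isOpen_ball).2.2 _ (v' a) (hHH a)
    refine (hHLO n (E m) 1).2.1 _ u' (ball x₀ ρ) isOpen_ball ?_ a1
    intro x _
    exact (comb fun a => v' a x).symm
  -- Step 5
  refine ⟨u', ρ, hρ0, hρR, ?_, hHu, ?_⟩
  · exact ae_mono (Measure.restrict_mono (ball_subset_ball hρR) le_rfl) hae
  · have hball : ball x₀ ρ ⊆ ball x₀ (2 * ρ) := ball_subset_ball (by linarith)
    have hs4 : Sol (ball x₀ ρ) u' D f :=
      Sol_restrict measurableSet_ball hball hs3 (Eventually.of_forall fun _ => rfl)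
    have key : ∀ a : Fin m, ∀ᵐ x ∂(volume.restrict (ball x₀ ρ)),
        ∀ i, D a x i = fderiv ℝ (v' a) x (bv i) := by
      intro a
      refine weak_eq hIBP isOpen_ball (fun i => (hDi3 a i).mono_set hball) (hs4.gr a)
        (hHH a).1 ?_
      intro i
      exact (hHMO n ℝ 0 _ _ isOpen_ball).2 ((hHH a).2 i)
    have key2 : ∀ᵐ x ∂(volume.restrict (ball x₀ ρ)), ∀ a : Fin m, ∀ i,
        D a x i = fderiv ℝ (v' a) x (bv i) := ae_all_iff.2 key
    filter_upwards [key2, ae_restrict_mem measurableSet_ball] with x hx hxm a i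
    rw [hx a i]
    exact fderiv_comp (hHu.1 x hxm) a (bv i)

end

end Pool.Agent.H25.RG6
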